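import Pool.Agent.ThueMorse.Main

set_option autoImplicit false

/-!
The linear bound for monochromatic arithmetic progressions in the Thue-Morse sequence.
-/

namespace Pool.Agent.Results.MP_aa4033_co.LinearBound

open Pool.Agent.ThueMorse

/-- the Thue-Morse sequence: the parity of the sum of the binary digits of `n` -/
def tm (n : ℕ) : ℕ := (Nat.digits 2 n).sum % 2

/-- the length of the longest monochromatic progression with difference `d` starting at `n`,
in `ℕ∞` -/
noncomputable def lenFrom (n d : ℕ) : ℕ∞ :=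
  ⨆ ℓ ∈ {ℓ : ℕ | 1 ≤ ℓ ∧ ∀ j < ℓ, tm (n + j * d) = tm n}, (ℓ : ℕ∞)

/-- the maximal length of a monochromatic progression with difference `d`, in `ℕ∞` -/
noncomputable def maxLen (d : ℕ) : ℕ∞ := ⨆ n : ℕ, lenFrom n d

theorem tm_eq_iff (x y : ℕ) : tm x = tm y ↔ tb x = tb y := by
  unfold tm tb
  rw [Nat.mod_two_of_bodd, Nat.mod_two_of_bodd]
  cases (Nat.digits 2 x).sum.bodd <;> cases (Nat.digits 2 y).sum.bodd <;> simp

theorem maxLen_le {d B : ℕ} (h : Bound d B) : maxLen d ≤ B := by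
  unfold maxLen lenFrom
  refine iSup_le fun n => iSup₂_le fun ℓ hℓ => ?_
  have : ℓ ≤ B := h n ℓ fun j hj => (tm_eq_iff _ _).mp (hℓ.2 j hj)
  exact_mod_cast this

theorem le_maxLen {n d ℓ : ℕ} (h1 : 1 ≤ ℓ) (h : MonoB n d ℓ) : (ℓ : ℕ∞) ≤ maxLen d := by
  unfold maxLen lenFrom
  refine le_iSup_of_le n (le_iSup₂_of_le ℓ ⟨h1, fun j hj => (tm_eq_iff _ _).mpr (h j hj)⟩ le_rfl)

/-- For every `d ≥ 1` the longest monochromatic progressions of difference `d` in the
Thue-Morse sequence have at most `d + 5` terms, with equality exactly for `d = 2 ^ k - 1` with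
`k ≥ 2` even. -/
theorem result :
    (∀ d : ℕ, 1 ≤ d → maxLen d ≤ d + 5) ∧
    (∀ d : ℕ, 1 ≤ d → (maxLen d = d + 5 ↔ ∃ k : ℕ, 2 ≤ k ∧ Even k ∧ d = 2 ^ k - 1)) := by
  refine ⟨fun d hd => ?_, fun d hd => ⟨fun h => ?_, fun h => ?_⟩⟩
  · have := maxLen_le (bound_all d hd)
    exact_mod_cast this
  · by_contra hns
    have h1 := maxLen_le (bound_nonspecial hd hns)
    rw [h] at h1
    have h2 : d + 5 ≤ d + 4 := by exact_mod_cast h1
    omega
  · obtain ⟨n, hn⟩ := mono_of_special h
    refine le_antisymm ?_ ?_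
    · have := maxLen_le (bound_all d hd)
      exact_mod_cast this
    · have := le_maxLen (by omega) hn
      exact_mod_cast this

end Pool.Agent.Results.MP_aa4033_co.LinearBound
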